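import Pool.Agent.Helper57.KE.St

/-!
# Project KE (MP_45ac3c_an), module DER: the derivative of `Psi`
-/

set_option autoImplicit false

open scoped BigOperators
open Finset

namespace Pool.Agent.Helper99.KE

open Pool.Agent.Helper57.KE Pool.Agent.Helper57.KR Pool.Agent.Helper65.RG

private theorem term (w a k ω' σ : ℝ) :
    HasDerivAt (fun τ : ℝ => w * (a * (2 * (τ * k) + ω') * Real.exp (-(2 * (τ * k)))))
      (w * (a * (2 * k) * Real.exp (-(2 * (σ * k))) +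
        a * (2 * (σ * k) + ω') * (Real.exp (-(2 * (σ * k))) * (-(2 * k))))) σ := by
  have h1 : HasDerivAt (fun τ : ℝ => 2 * (τ * k)) (2 * k) σ := by
    have := ((hasDerivAt_id σ).mul_const k).const_mul 2
    simpa using this
  have h2 : HasDerivAt (fun τ : ℝ => a * (2 * (τ * k) + ω')) (a * (2 * k)) σ :=
    (h1.add_const ω').const_mul a
  have h3 : HasDerivAt (fun τ : ℝ => Real.exp (-(2 * (τ * k))))
      (Real.exp (-(2 * (σ * k))) * (-(2 * k))) σ := h1.neg.exp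
  exact (h2.mul h3).const_mul w

/-- DER. -/
theorem hDER : StDER := by
  intro v p ω ω' m σ hσ
  have h1 : HasDerivAt (fun τ : ℝ => τ ^ ω) (ω * σ ^ (ω - 1)) σ :=
    Real.hasDerivAt_rpow_const (Or.inl hσ.ne')
  have h3 := HasDerivAt.fun_sum (u := range m)
    (fun i _ => term (v i) (((i : ℝ) + 1) ^ (2 * p - 2)) ((i : ℝ) + 1) ω' σ)
  have h4 := h1.mul h3
  have e : dPsi v p ω ω' m σ = ω * σ ^ (ω - 1) * (∑ i ∈ range m, v i *
      (((i : ℝ) + 1) ^ (2 * p - 2) * (2 * (σ * ((i : ℝ) + 1)) + ω') *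
      Real.exp (-(2 * (σ * ((i : ℝ) + 1)))))) + σ ^ ω * ∑ i ∈ range m,
      v i * (((i : ℝ) + 1) ^ (2 * p - 2) * (2 * ((i : ℝ) + 1)) *
      Real.exp (-(2 * (σ * ((i : ℝ) + 1)))) + ((i : ℝ) + 1) ^ (2 * p - 2) *
      (2 * (σ * ((i : ℝ) + 1)) + ω') * (Real.exp (-(2 * (σ * ((i : ℝ) + 1)))) *
      (-(2 * ((i : ℝ) + 1))))) := by
    have hs : σ ^ ω = σ ^ (ω - 1) * σ := by
      rw [← Real.rpow_add_one hσ.ne']
      congr 1
      ring
    unfold dPsi
    rw [hs, mul_sum, mul_sum, mul_sum, ← sum_add_distrib]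
    exact sum_congr rfl fun i _ => by ring
  rw [e]
  exact h4

end Pool.Agent.Helper99.KE
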