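import Pool.Agent.Helper57.KE.St2

/-!
# Project KF, module LBZ: the lower bound for the derivative at the endpoint

Adapted from `Pool/Agent/Helper45/KE/M_LB.lean`.
-/

set_option autoImplicit false

open scoped BigOperators
open Finset

namespace Pool.Agent.Helper99.KE

open Pool.Agent.Helper57.KE Pool.Agent.Helper57.KR Pool.Agent.Helper65.RG

private lemma ss_facts (c : ℝ) (hc : 1 < c) : 0 < ss c ∧ ss c < 1 ∧ ss c ^ 2 = 1 - 1 / c ^ 2 := by
  have h1 : 1 < c ^ 2 := by nlinarith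
  have h2 : 1 / c ^ 2 < 1 := by rw [div_lt_one (by linarith)]; exact h1
  have h3 : 0 < 1 / c ^ 2 := by positivity
  have h4 : ss c ^ 2 = 1 - 1 / c ^ 2 := by
    unfold ss
    exact Real.sq_sqrt (by linarith)
  have h5 : 0 < ss c := by
    unfold ss
    exact Real.sqrt_pos.2 (by linarith)
  refine ⟨h5, ?_, h4⟩
  nlinarith

private lemma weight2 (p σ s x : ℝ) (hσ : 0 < σ) (hs0 : 0 < s) (hs1 : s < 1) (hx : 1 ≤ x) :
    x ^ (2 * p - 2) * Real.exp (-(2 * (σ * x))) * ((1 + σ * x) * (σ / s + 1 / x)) ≤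
      1 / s * x ^ (2 * p - 3) := by
  have hx0 : 0 < x := by linarith
  have hy : 0 ≤ σ * x := by positivity
  have e1 : x ^ (2 * p - 3) = x ^ (2 * p - 2) / x := by
    rw [← Real.rpow_sub_one hx0.ne']
    congr 1
    ring
  have h1 : σ / s + 1 / x ≤ (1 + σ * x) / (s * x) := by
    rw [div_add_div _ _ hs0.ne' hx0.ne']
    apply div_le_div_of_nonneg_right _ (by positivity)
    nlinarith
  have h2 : 1 + σ * x ≤ Real.exp (σ * x) := by
    have := Real.add_one_le_exp (σ * x)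
    linarith
  have h3 : (1 + σ * x) * (1 + σ * x) ≤ Real.exp (σ * x) * Real.exp (σ * x) :=
    mul_le_mul h2 h2 (by positivity) (Real.exp_nonneg _)
  have h4 : Real.exp (-(2 * (σ * x))) * ((1 + σ * x) * (1 + σ * x)) ≤ 1 := by
    calc Real.exp (-(2 * (σ * x))) * ((1 + σ * x) * (1 + σ * x)) ≤
          Real.exp (-(2 * (σ * x))) * (Real.exp (σ * x) * Real.exp (σ * x)) :=
          mul_le_mul_of_nonneg_left h3 (Real.exp_nonneg _)
      _ = 1 := by
        rw [← Real.exp_add, ← Real.exp_add]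
        have : -(2 * (σ * x)) + (σ * x + σ * x) = 0 := by ring
        rw [this, Real.exp_zero]
  have hR : 0 < x ^ (2 * p - 2) := by positivity
  calc x ^ (2 * p - 2) * Real.exp (-(2 * (σ * x))) * ((1 + σ * x) * (σ / s + 1 / x)) ≤
        x ^ (2 * p - 2) * Real.exp (-(2 * (σ * x))) * ((1 + σ * x) * ((1 + σ * x) / (s * x))) := by
        gcongr
    _ = (x ^ (2 * p - 2) / (s * x)) *
          (Real.exp (-(2 * (σ * x))) * ((1 + σ * x) * (1 + σ * x))) := by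
        field_simp
    _ ≤ (x ^ (2 * p - 2) / (s * x)) * 1 := mul_le_mul_of_nonneg_left h4 (by positivity)
    _ = 1 / s * x ^ (2 * p - 3) := by
        rw [e1]
        field_simp

/-- Module LBZ. -/
theorem hLBZ : StLBZ := by
  intro hPT c hc
  obtain ⟨hs0, hs1, hs2⟩ := ss_facts c hc
  obtain ⟨s, hs⟩ : ∃ s, s = ss c := ⟨_, rfl⟩
  rw [← hs] at hs0 hs1 hs2
  obtain ⟨p, hp⟩ : ∃ p, p = (1 - s) / (1 + s) := ⟨_, rfl⟩
  have hpp : pp c = p := by rw [hp, hs]; rfl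
  have hp0 : 0 < p := by rw [hp]; exact div_pos (by linarith) (by linarith)
  have hp1 : p < 1 := by rw [hp, div_lt_one (by linarith)]; linarith
  obtain ⟨L, hL⟩ : ∃ L, L = 6 * s / (1 - s) := ⟨_, rfl⟩
  have hL0 : 0 < L := by rw [hL]; exact div_pos (by linarith) (by linarith)
  obtain ⟨κ, hκ⟩ : ∃ κ, κ = 2 * s / (1 - s) := ⟨_, rfl⟩
  have hκ0 : 0 < κ := by rw [hκ]; exact div_pos (by linarith) (by linarith)
  have hκL : κ ≤ L / s := by
    rw [hκ, hL]
    have h1 : 6 * s / (1 - s) / s = 6 / (1 - s) := by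
      have : (1 - s) ≠ 0 := by linarith
      field_simp
    rw [h1]
    exact div_le_div_of_nonneg_right (by linarith) (by linarith)
  refine ⟨min s ((1 - s) / s), L / s, ?_, by positivity, ?_⟩
  · exact lt_min hs0 (div_pos (by linarith) hs0)
  intro v hv m σ hσ hσ0
  have hσs : σ ≤ s := le_trans hσ0 (min_le_left _ _)
  have hσ1 : σ ≤ (1 - s) / s := le_trans hσ0 (min_le_right _ _)
  obtain ⟨hv0, hq⟩ := hv
  rw [hpp]
  obtain ⟨g, hg⟩ : ∃ g, g = gg p σ := ⟨_, rfl⟩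
  -- the quadratic inequality
  have hδ0 : 0 < σ / s := by positivity
  have hδ1 : σ / s ≤ 1 := by rw [div_le_one hs0]; exact hσs
  have q1 := hq (σ / s) hδ0 hδ1 g m
  have hcc : 0 < c ^ 2 := by positivity
  have hc2 : c ^ 2 * (1 - s ^ 2) = 1 := by
    rw [hs2]
    field_simp
    ring
  have q2 : 0 ≤ ∑ i ∈ range m, v i * (σ ^ 2 * g i ^ 2 + 2 * (σ / s) * g i * (g i - sh g i) +
      (g i - sh g i) ^ 2) + v m * (sh g m) ^ 2 := by
    have e1 : ∑ i ∈ range m, v i * (σ ^ 2 * g i ^ 2 + 2 * (σ / s) * g i * (g i - sh g i) +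
        (g i - sh g i) ^ 2) = ∑ i ∈ range m, v i * ((1 + σ / s) * g i - sh g i) ^ 2 -
          (1 - s ^ 2) * ((σ / s) ^ 2 * ∑ i ∈ range m, v i * g i ^ 2) := by
      rw [Finset.mul_sum, Finset.mul_sum, ← Finset.sum_sub_distrib]
      refine Finset.sum_congr rfl fun i _ => ?_
      have e2 : σ ^ 2 = s ^ 2 * (σ / s) ^ 2 := by
        field_simp
      rw [e2]
      ring
    have h1s : 0 < 1 - s ^ 2 := by nlinarith
    have e3 : (1 - s ^ 2) * ((σ / s) ^ 2 * ∑ i ∈ range m, v i * g i ^ 2) ≤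
        ∑ i ∈ range m, v i * ((1 + σ / s) * g i - sh g i) ^ 2 + v m * (sh g m) ^ 2 := by
      calc (1 - s ^ 2) * ((σ / s) ^ 2 * ∑ i ∈ range m, v i * g i ^ 2) ≤ (1 - s ^ 2) * (c ^ 2 *
            (∑ i ∈ range m, v i * ((1 + σ / s) * g i - sh g i) ^ 2 + v m * (sh g m) ^ 2)) :=
            mul_le_mul_of_nonneg_left q1 h1s.le
        _ = (c ^ 2 * (1 - s ^ 2)) * (∑ i ∈ range m, v i * ((1 + σ / s) * g i - sh g i) ^ 2 +
            v m * (sh g m) ^ 2) := by ring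
        _ = _ := by rw [hc2, one_mul]
    rw [e1]
    linarith
  -- the terms
  have ht : ∀ i : ℕ, κ * (v i * (σ ^ 2 * g i ^ 2 + 2 * (σ / s) * g i * (g i - sh g i) +
      (g i - sh g i) ^ 2)) - L / s * (v i * ((i : ℝ) + 1) ^ (2 * p - 3)) ≤
      v i * (((i : ℝ) + 1) ^ (2 * p - 2) * Real.exp (-(2 * (σ * ((i : ℝ) + 1)))) *
        (p * (1 - p) + 2 * (p + 1 - (1 - p)) * (σ * ((i : ℝ) + 1)) -
          4 * (σ * ((i : ℝ) + 1)) ^ 2)) := by
    intro i
    have hpt := hPT s σ i hs0 hs1 hσ hσs hσ1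
    rw [← hp, ← hL, ← hκ, ← hg] at hpt
    have hx : (1 : ℝ) ≤ (i : ℝ) + 1 := by
      have : (0 : ℝ) ≤ i := Nat.cast_nonneg i
      linarith
    have hw := weight2 p σ s ((i : ℝ) + 1) hσ hs0 hs1 hx
    obtain ⟨E, hE⟩ : ∃ E, E = ((i : ℝ) + 1) ^ (2 * p - 2) * Real.exp (-(2 * (σ * ((i : ℝ) + 1)))) :=
      ⟨_, rfl⟩
    rw [← hE] at hpt hw ⊢
    have h1 := mul_le_mul_of_nonneg_left hw hL0.le
    have h3 : κ * (σ ^ 2 * g i ^ 2 + 2 * (σ / s) * g i * (g i - sh g i) + (g i - sh g i) ^ 2) -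
        L / s * ((i : ℝ) + 1) ^ (2 * p - 3) ≤ E * (p * (1 - p) +
          2 * (p + 1 - (1 - p)) * (σ * ((i : ℝ) + 1)) - 4 * (σ * ((i : ℝ) + 1)) ^ 2) := by
      have e1 : L * (1 / s * ((i : ℝ) + 1) ^ (2 * p - 3)) = L / s * ((i : ℝ) + 1) ^ (2 * p - 3) := by
        ring
      rw [e1] at h1
      linarith
    have h4 := mul_le_mul_of_nonneg_left h3 (hv0 i)
    have h5 : v i * (κ * (σ ^ 2 * g i ^ 2 + 2 * (σ / s) * g i * (g i - sh g i) + (g i - sh g i) ^ 2) -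
        L / s * ((i : ℝ) + 1) ^ (2 * p - 3)) =
        κ * (v i * (σ ^ 2 * g i ^ 2 + 2 * (σ / s) * g i * (g i - sh g i) + (g i - sh g i) ^ 2)) -
        L / s * (v i * ((i : ℝ) + 1) ^ (2 * p - 3)) := by
      ring
    rw [h5] at h4
    exact h4
  have hsum := Finset.sum_le_sum fun i (_ : i ∈ range m) => ht i
  rw [Finset.sum_sub_distrib, ← Finset.mul_sum, ← Finset.mul_sum] at hsum
  have hm0 : 0 ≤ v m * (sh g m) ^ 2 := mul_nonneg (hv0 m) (sq_nonneg _)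
  unfold dPsi
  rw [← hg, ← mul_neg]
  refine mul_le_mul_of_nonneg_left ?_ (Real.rpow_nonneg hσ.le _)
  have hfin : -(L / s * (∑ i ∈ range m, v i * ((i : ℝ) + 1) ^ (2 * p - 3) + v m * (sh g m) ^ 2)) ≤
      κ * ∑ i ∈ range m, v i * (σ ^ 2 * g i ^ 2 + 2 * (σ / s) * g i * (g i - sh g i) +
        (g i - sh g i) ^ 2) - L / s * ∑ i ∈ range m, v i * ((i : ℝ) + 1) ^ (2 * p - 3) := by
    have h1 := mul_nonneg hκ0.le q2
    have h2 := mul_le_mul_of_nonneg_right hκL hm0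
    rw [mul_add] at h1
    linarith
  exact hfin.trans hsum

end Pool.Agent.Helper99.KE
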